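import Pool.Agent.X212.Roth.Space

/-!
# The games `G₁(𝒩[𝒜], ¬Γ(X, ℬ))` and `G₁(𝒩[𝒜], ¬𝒪(X, ℬ))` are not equivalent for player Two

Q1 asks whether these games are always equivalent for player Two.  The answer is negative, for Markov
strategies: there is a regular Hausdorff space `X` such that for `𝒜` = the finite subsets and
`ℬ` = the singletons Two has a winning Markov strategy in the first game (even one which does not
depend on the number of the inning), but no winning Markov strategy in the second game.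

Idea. The space is the sum of the two half-open interval topologies on the line of the beginnings and
ends of the nodes of a coherent Aronszajn tree.  It is Rothberger, so that for every Markov strategy of
Two there are moves of One such that the answers of Two cover the space.  Every finite set has an
open neighbourhood which contains both copies of finitely many points of the line only; if Two
answers with such neighbourhoods and the answers are a cover in `Γ(X, ℬ)` then the line is a countable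
union of finite sets.
-/

set_option autoImplicit false

open Set Topology

namespace Pool.Agent.Results.MP_953c35_gt.MarkovNotEquivalent

section

variable {X : Type}

/-- `𝒜` is an ideal base. -/
def IsIdealBase (𝒜 : Set (Set X)) : Prop :=
  ∀ A₁ ∈ 𝒜, ∀ A₂ ∈ 𝒜, ∃ A₃ ∈ 𝒜, A₁ ∪ A₂ ⊆ A₃

variable [TopologicalSpace X]

/-- The convention of the problem: every `A ∈ 𝒜` is contained in some open `U ≠ X`. -/
def Proper (𝒜 : Set (Set X)) : Prop := ∀ A ∈ 𝒜, ∃ U : Set X, IsOpen U ∧ A ⊆ U ∧ U ≠ Set.univ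

/-- `𝒪(X, ℬ)`: the open covers `𝒰` of `X` with `X ∉ 𝒰` such that every `B ∈ ℬ` is contained in
some member of `𝒰`. -/
def OCov (ℬ : Set (Set X)) : Set (Set (Set X)) :=
  {𝒰 | (∀ U ∈ 𝒰, IsOpen U) ∧ ⋃₀ 𝒰 = Set.univ ∧ Set.univ ∉ 𝒰 ∧ ∀ B ∈ ℬ, ∃ U ∈ 𝒰, B ⊆ U}

/-- `Γ(X, ℬ)`: the infinite open covers `𝒰` of `X` with `X ∉ 𝒰` such that for every `B ∈ ℬ` the
set `{U ∈ 𝒰 : B ⊈ U}` is finite. -/
def GCov (ℬ : Set (Set X)) : Set (Set (Set X)) :=
  {𝒰 | (∀ U ∈ 𝒰, IsOpen U) ∧ ⋃₀ 𝒰 = Set.univ ∧ Set.univ ∉ 𝒰 ∧ 𝒰.Infinite ∧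
    ∀ B ∈ ℬ, {U | U ∈ 𝒰 ∧ ¬ B ⊆ U}.Finite}

/-- `σ` is a Markov strategy of Two: the answer in inning `n` to `A ∈ 𝒜` is the legal answer
`σ n A`, an open set with `A ⊆ σ n A ≠ X`. -/
def IsMarkov (𝒜 : Set (Set X)) (σ : ℕ → Set X → Set X) : Prop :=
  ∀ n, ∀ A ∈ 𝒜, IsOpen (σ n A) ∧ A ⊆ σ n A ∧ σ n A ≠ Set.univ

/-- Two has a winning Markov strategy in the game `G₁(𝒩[𝒜], ¬P)`: for all moves `A n ∈ 𝒜` of One
the set of the answers is not in `P`. -/
def TwoWinsMarkov (𝒜 : Set (Set X)) (P : Set (Set (Set X))) : Prop :=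
  ∃ σ : ℕ → Set X → Set X, IsMarkov 𝒜 σ ∧
    ∀ A : ℕ → Set X, (∀ n, A n ∈ 𝒜) → Set.range (fun n => σ n (A n)) ∉ P

end

open Pool.Agent.X212.Roth

theorem t3_sum {A B : Type} [TopologicalSpace A] [TopologicalSpace B] [T3Space A] [T3Space B] :
    T3Space (A ⊕ B) := by
  have h : RegularSpace (A ⊕ B) := by
    apply RegularSpace.of_exists_mem_nhds_isClosed_subset
    rintro (x | x) s hs
    · have h1 : Sum.inl ⁻¹' s ∈ 𝓝 x := continuous_inl.continuousAt hs
      obtain ⟨t, ht, htc, hts⟩ := exists_mem_nhds_isClosed_subset h1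
      refine ⟨Sum.inl '' t, isOpenMap_inl.image_mem_nhds ht, ?_, Set.image_subset_iff.2 hts⟩
      exact Topology.IsClosedEmbedding.inl.isClosedMap t htc
    · have h1 : Sum.inr ⁻¹' s ∈ 𝓝 x := continuous_inr.continuousAt hs
      obtain ⟨t, ht, htc, hts⟩ := exists_mem_nhds_isClosed_subset h1
      refine ⟨Sum.inr '' t, isOpenMap_inr.image_mem_nhds ht, ?_, Set.image_subset_iff.2 hts⟩
      exact Topology.IsClosedEmbedding.inr.isClosedMap t htc
  exact { }

theorem nonempty_X : Nonempty X := by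
  by_contra hX
  rw [not_nonempty_iff] at hX
  exact uncountable_X inferInstance

/-- **Theorem.** There are a regular Hausdorff space `X`, an ideal base `𝒜` (the finite sets) and
`ℬ` (the singletons) such that Two has a winning Markov strategy in `G₁(𝒩[𝒜], ¬Γ(X, ℬ))` but not in
`G₁(𝒩[𝒜], ¬𝒪(X, ℬ))`. -/
theorem result : ∃ (Y : Type) (_ : TopologicalSpace Y) (𝒜 ℬ : Set (Set Y)),
    T3Space Y ∧ 𝒜 = {A | A.Finite} ∧ ℬ = {B | ∃ y, B = {y}} ∧ IsIdealBase 𝒜 ∧ Proper 𝒜 ∧
      TwoWinsMarkov 𝒜 (GCov ℬ) ∧ ¬ TwoWinsMarkov 𝒜 (OCov ℬ) := by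
  have huniv : ∀ V : Set (Z X), {x : X | il x ∈ V ∧ ir x ∈ V}.Finite → V ≠ Set.univ := by
    rintro V hV rfl
    apply uncountable_X
    rw [← Set.countable_univ_iff]
    refine hV.countable.mono ?_
    intro x _
    exact ⟨Set.mem_univ _, Set.mem_univ _⟩
  refine ⟨Z X, inferInstance, {A | A.Finite}, {B | ∃ y, B = {y}}, t3_sum, rfl, rfl, ?_, ?_, ?_, ?_⟩
  · intro A hA B hB
    exact ⟨A ∪ B, Set.Finite.union hA hB, subset_rfl⟩
  · intro A hA
    obtain ⟨V, hV, hAV, hfin⟩ := exists_open hA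
    exact ⟨V, hV, hAV, huniv V hfin⟩
  · choose! V hV hAV hfin using (fun (F : Set (Z X)) (hF : F.Finite) => exists_open hF)
    refine ⟨fun _ A => V A, fun n A hA => ⟨hV A hA, hAV A hA, huniv _ (hfin A hA)⟩, ?_⟩
    rintro A hA ⟨-, -, -, hinf, hB⟩
    apply uncountable_X
    rw [← Set.countable_univ_iff]
    refine (Set.countable_iUnion (fun n => (hfin (A n) (hA n)).countable)).mono ?_
    intro x _
    have h1 := hB {il x} ⟨il x, rfl⟩
    have h2 := hB {ir x} ⟨ir x, rfl⟩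
    obtain ⟨U, hU, hU'⟩ := hinf.exists_notMem_finite (h1.union h2)
    obtain ⟨n, rfl⟩ := hU
    refine Set.mem_iUnion.2 ⟨n, ?_, ?_⟩
    · by_contra hc
      exact hU' (Or.inl ⟨⟨n, rfl⟩, fun h => hc (h rfl)⟩)
    · by_contra hc
      exact hU' (Or.inr ⟨⟨n, rfl⟩, fun h => hc (h rfl)⟩)
  · rintro ⟨σ, hσ, hwin⟩
    obtain ⟨P, hP, hPu, hPs⟩ := pieces (fun n => {U | ∃ F : Set (Z X), F.Finite ∧ U = σ n F})
      (by
        rintro n _ ⟨F, hF, rfl⟩
        exact (hσ n F hF).1)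
      (by
        intro n
        rw [Set.eq_univ_iff_forall]
        intro z
        exact ⟨σ n {z}, ⟨{z}, Set.finite_singleton z, rfl⟩, (hσ n {z} (Set.finite_singleton z)).2.1 rfl⟩)
    have hne : P.Nonempty := by
      by_contra hne
      rw [Set.not_nonempty_iff_eq_empty] at hne
      rw [hne, Set.sUnion_empty] at hPu
      obtain ⟨x⟩ := nonempty_X
      have : il x ∈ (Set.univ : Set (Z X)) := trivial
      rw [← hPu] at this
      exact this
    obtain ⟨p, hp⟩ := hP.exists_eq_range hne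
    have h1 : ∀ n, ∃ F : Set (Z X), F.Finite ∧ p n ⊆ σ n F := by
      intro n
      obtain ⟨_, ⟨F, hF, rfl⟩, h⟩ := hPs (p n) (hp ▸ Set.mem_range_self n) n
      exact ⟨F, hF, h⟩
    choose F hF hpF using h1
    have hcov : ∀ z : Z X, ∃ n, z ∈ σ n (F n) := by
      intro z
      have : z ∈ ⋃₀ P := by rw [hPu]; trivial
      obtain ⟨q, hq, hz⟩ := this
      rw [hp] at hq
      obtain ⟨n, rfl⟩ := hq
      exact ⟨n, hpF n hz⟩
    refine hwin F hF ⟨?_, ?_, ?_, ?_⟩
    · rintro _ ⟨n, rfl⟩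
      exact (hσ n (F n) (hF n)).1
    · rw [Set.eq_univ_iff_forall]
      intro z
      obtain ⟨n, hn⟩ := hcov z
      exact ⟨_, ⟨n, rfl⟩, hn⟩
    · rintro ⟨n, hn⟩
      exact (hσ n (F n) (hF n)).2.2 hn
    · rintro _ ⟨z, rfl⟩
      obtain ⟨n, hn⟩ := hcov z
      exact ⟨_, ⟨n, rfl⟩, Set.singleton_subset_iff.2 hn⟩

end Pool.Agent.Results.MP_953c35_gt.MarkovNotEquivalent
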